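import Pool.Agent.Q67.BC.Core

/-!
# No smooth cylindrical transformation over a minimal rotation of a torus is Besicovitch
-/

noncomputable section

namespace Pool.Agent.Results.MP_3d11e1_an.NoSmoothBesicovitch

open Filter Topology Pool.Agent.Q67.BC UnitAddTorus
open scoped ContDiff

/-- the `d`-dimensional torus `ℝ^d / ℤ^d` -/
abbrev Tor (d : ℕ) : Type := Fin d → UnitAddCircle

/-- the projection `ℝ^d → 𝕋^d` -/
def proj {d : ℕ} (x : Fin d → ℝ) : Tor d := fun i => (x i : UnitAddCircle)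

/-- the cylindrical transformation `T_φ (x, t) = (x + α, t + φ x)`, as a bijection of
`𝕋^d × ℝ` -/
def cyl {d : ℕ} (α : Fin d → ℝ) (φ : Tor d → ℝ) : Equiv.Perm (Tor d × ℝ) where
  toFun p := (p.1 + proj α, p.2 + φ p.1)
  invFun p := (p.1 - proj α, p.2 - φ (p.1 - proj α))
  left_inv p := by ext <;> simp
  right_inv p := by ext <;> simp

/-- `T` has a dense orbit -/
def Transitive {d : ℕ} (T : Equiv.Perm (Tor d × ℝ)) : Prop :=
  ∃ p, Dense (Set.range (fun n : ℤ => (T ^ n) p))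

/-- the orbit of `p` is discrete: the second coordinates tend to infinity in absolute value -/
def DiscreteOrbit {d : ℕ} (T : Equiv.Perm (Tor d × ℝ)) (p : Tor d × ℝ) : Prop :=
  Tendsto (fun n : ℤ => |((T ^ n) p).2|) cofinite atTop

/-- Besicovitch transformations -/
def Besicovitch {d : ℕ} (T : Equiv.Perm (Tor d × ℝ)) : Prop :=
  Transitive T ∧ ∃ p, DiscreteOrbit T p

variable {d : ℕ}

lemma proj_eq (x : Fin d → ℝ) : proj x = pr x := rfl

lemma cyl_fst (α : Fin d → ℝ) (φ : Tor d → ℝ) (p : Tor d × ℝ) (n : ℤ) :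
    ((cyl α φ ^ n) p).1 = p.1 + n • proj α := by
  induction n using Int.induction_on with
  | zero => simp
  | succ n ih =>
    rw [add_comm (n:ℤ) 1, zpow_add, zpow_one, Equiv.Perm.mul_apply]
    show ((cyl α φ ^ (n:ℤ)) p).1 + proj α = _
    rw [ih, add_smul, one_smul]; abel
  | pred n ih =>
    rw [show -(n:ℤ) - 1 = -1 + -(n:ℤ) by ring, zpow_add, zpow_neg_one, Equiv.Perm.mul_apply]
    show ((cyl α φ ^ (-(n:ℤ))) p).1 - proj α = _
    rw [ih, add_smul, neg_one_smul]; abel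

lemma cyl_snd (α : Fin d → ℝ) (φ : Tor d → ℝ) (p : Tor d × ℝ) (n : ℤ) :
    ((cyl α φ ^ (n+1)) p).2 = ((cyl α φ ^ n) p).2 + φ (p.1 + n • proj α) := by
  rw [add_comm n 1, zpow_add, zpow_one, Equiv.Perm.mul_apply, ← cyl_fst α φ p n]
  rfl

lemma proj_zsmul (α : Fin d → ℝ) (n : ℤ) : n • proj α = pr (fun i => n * α i) := by
  funext i
  show n • ((α i : ℝ) : UnitAddCircle) = ((n * α i : ℝ) : UnitAddCircle)
  rw [← AddCircle.coe_zsmul, zsmul_eq_mul]

lemma mF_orbit (α : Fin d → ℝ) (x : Tor d) (k : Fin d → ℤ) (n : ℤ) :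
    mFourier k (x + n • proj α) = mFourier k x * zz α k ^ n := by
  rw [proj_zsmul]
  have h := mF_add k x (pr (fun i => n * α i))
  rw [h, mF_pr]
  congr 1
  unfold zz th
  rw [← Complex.exp_int_mul]
  congr 1
  push_cast
  have : ∑ i, (k i : ℂ) * (n * α i) = n * ∑ i, (k i : ℂ) * α i := by
    rw [Finset.mul_sum]
    exact Finset.sum_congr rfl (fun i _ => by ring)
  rw [this]; ring

/-- rational independence of `1, α_1, …, α_d` -/
lemma irr_of_indep {α : Fin d → ℝ}
    (h : LinearIndependent ℚ (Fin.cons (1:ℝ) α : Fin (d+1) → ℝ)) :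
    ∀ k : Fin d → ℤ, k ≠ 0 → eta α k ≠ 0 := by
  intro k hk he
  apply hk
  have h1 : (∑ i, (k i : ℝ) * α i) - (round (∑ i, (k i : ℝ) * α i) : ℝ) = 0 := he
  rw [Fintype.linearIndependent_iff] at h
  have h2 := h (Fin.cons (-(round (∑ i, (k i : ℝ) * α i) : ℚ)) (fun i => (k i : ℚ))) (by
    rw [Fin.sum_univ_succ]
    simp only [Fin.cons_zero, Fin.cons_succ]
    have e : ∀ i, ((k i : ℚ) • α i : ℝ) = (k i : ℝ) * α i := by
      intro i; rw [Rat.smul_def]; push_cast; rfl
    simp only [e]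
    rw [Rat.smul_def]
    push_cast
    linarith)
  funext i
  have h3 := h2 i.succ
  simp only [Fin.cons_succ] at h3
  exact_mod_cast h3

/-- the Fourier system of an orbit -/
def sysOf {α : Fin d → ℝ} (hα : ∀ k : Fin d → ℤ, k ≠ 0 → eta α k ≠ 0) {φ : Tor d → ℝ}
    (hφ : ContDiff ℝ ∞ (fun x : Fin d → ℝ => φ (proj x))) (p : Tor d × ℝ) : Sys d :=
  have hc : Continuous φ := by
    have hq : Topology.IsQuotientMap (pr (d := d)) := by
      have h1 : IsOpenQuotientMap (pr (d := d)) :=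
        IsOpenQuotientMap.piMap (fun _ => QuotientAddGroup.isOpenQuotientMap_mk)
      exact h1.isQuotientMap
    rw [hq.continuous_iff]
    exact hφ.continuous
  have hs : ContDiff ℝ ∞ (fun x : Fin d → ℝ => ((φ (pr x) : ℝ) : ℂ)) :=
    Complex.ofRealCLM.contDiff.comp hφ
  have hcc : Continuous (fun t : UnitAddTorus (Fin d) => ((φ t : ℝ) : ℂ)) :=
    Complex.continuous_ofReal.comp hc
  { α := α
    hirr := hα
    γ := fun k => mFourierCoeff (fun t : UnitAddTorus (Fin d) => ((φ t : ℝ) : ℂ)) k *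
      mFourier k p.1
    hγ := fun N => by
      have h := coeff_summable hs hcc N
      refine h.congr (fun k => ?_)
      rw [norm_mul, mF_norm, mul_one]
    a := fun n => φ (p.1 + n • proj α)
    ha := fun n => by
      have h0 : Summable (mFourierCoeff (fun t : UnitAddTorus (Fin d) => ((φ t : ℝ) : ℂ))) := by
        have := coeff_summable hs hcc 0
        simp only [pow_zero, mul_one] at this
        exact this.of_norm
      have h1 := hasSum_mFourier_series_apply_of_summable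
        (f := ⟨fun t : UnitAddTorus (Fin d) => ((φ t : ℝ) : ℂ), hcc⟩) h0 (p.1 + n • proj α)
      have h2 : ∀ k, mFourierCoeff (fun t : UnitAddTorus (Fin d) => ((φ t : ℝ) : ℂ)) k *
          mFourier k p.1 * zz α k ^ n =
          mFourierCoeff (fun t : UnitAddTorus (Fin d) => ((φ t : ℝ) : ℂ)) k •
            mFourier k (p.1 + n • proj α) := by
        intro k
        rw [mF_orbit, smul_eq_mul]; ring
      simp only [h2]
      exact h1
    S := fun n => ((cyl α φ ^ n) p).2 - p.2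
    hS := fun n => by
      rw [cyl_snd]; ring
    hS0 := by simp }

/-- the zeroth coefficient does not depend on the orbit -/
lemma sysOf_zero {α : Fin d → ℝ} (hα : ∀ k : Fin d → ℤ, k ≠ 0 → eta α k ≠ 0) {φ : Tor d → ℝ}
    (hφ : ContDiff ℝ ∞ (fun x : Fin d → ℝ => φ (proj x))) (p : Tor d × ℝ) :
    (sysOf hα hφ p).γ 0 =
      mFourierCoeff (fun t : UnitAddTorus (Fin d) => ((φ t : ℝ) : ℂ)) 0 := by
  show mFourierCoeff (fun t : UnitAddTorus (Fin d) => ((φ t : ℝ) : ℂ)) 0 * mFourier 0 p.1 = _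
  rw [mFourier_zero]; simp

lemma discrete_iff {α : Fin d → ℝ} (hα : ∀ k : Fin d → ℤ, k ≠ 0 → eta α k ≠ 0) {φ : Tor d → ℝ}
    (hφ : ContDiff ℝ ∞ (fun x : Fin d → ℝ => φ (proj x))) (p : Tor d × ℝ) :
    DiscreteOrbit (cyl α φ) p ↔ Tendsto (fun n : ℤ => |(sysOf hα hφ p).S n|) cofinite atTop := by
  have e : ∀ n, (sysOf hα hφ p).S n = ((cyl α φ ^ n) p).2 - p.2 := fun n => rfl
  unfold DiscreteOrbit
  constructor
  · intro h
    refine tendsto_atTop_mono (fun n => ?_) (tendsto_atTop_add_const_right _ (-|p.2|) h)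
    rw [e]
    have := abs_sub_abs_le_abs_sub ((cyl α φ ^ n) p).2 p.2
    linarith
  · intro h
    refine tendsto_atTop_mono (fun n => ?_) (tendsto_atTop_add_const_right _ (-|p.2|) h)
    rw [e]
    have := abs_sub ((cyl α φ ^ n) p).2 p.2
    linarith

lemma not_dense_of_discrete {T : Equiv.Perm (Tor d × ℝ)} {p : Tor d × ℝ}
    (h : DiscreteOrbit T p) : ¬ Dense (Set.range (fun n : ℤ => (T ^ n) p)) := by
  intro hd
  have h1 := h.eventually_gt_atTop 1
  rw [Filter.eventually_cofinite] at h1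
  set V : Set ℝ := (fun n : ℤ => ((T ^ n) p).2) '' {n : ℤ | ¬ (1 < |((T ^ n) p).2|)} with hV
  have hVf : V.Finite := h1.image _
  have hO : IsOpen ((Set.univ : Set (Tor d)) ×ˢ (Set.Ioo (0:ℝ) 1 ∩ Vᶜ)) :=
    isOpen_univ.prod (isOpen_Ioo.inter hVf.isClosed.isOpen_compl)
  have hne : ((Set.univ : Set (Tor d)) ×ˢ (Set.Ioo (0:ℝ) 1 ∩ Vᶜ)).Nonempty := by
    have h2 : (Set.Ioo (0:ℝ) 1 \ V).Nonempty :=
      ((Set.Ioo_infinite one_pos).sdiff hVf).nonempty
    obtain ⟨y, hy⟩ := h2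
    exact ⟨(0, y), Set.mem_univ _, hy.1, hy.2⟩
  obtain ⟨q, hq, ⟨n, rfl⟩⟩ := hd.inter_open_nonempty _ hO hne
  obtain ⟨_, h3, h4⟩ := hq
  apply h4
  refine ⟨n, ?_, rfl⟩
  show ¬ (1 < |((T ^ n) p).2|)
  rw [not_lt, abs_le]
  exact ⟨by linarith [h3.1], h3.2.le⟩

/-- **Main theorem.** Over a minimal rotation of a torus of any dimension, a `C^∞` cylindrical
transformation has either only discrete orbits or no discrete orbit; it is never Besicovitch. -/
theorem result (d : ℕ) (α : Fin d → ℝ)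
    (hα : LinearIndependent ℚ (Fin.cons (1:ℝ) α : Fin (d+1) → ℝ)) (φ : Tor d → ℝ)
    (hφ : ContDiff ℝ ∞ (fun x : Fin d → ℝ => φ (proj x))) :
    ((∀ p, DiscreteOrbit (cyl α φ) p) ∨ (∀ p, ¬ DiscreteOrbit (cyl α φ) p)) ∧
      ¬ Besicovitch (cyl α φ) := by
  have hirr := irr_of_indep hα
  have hdich : (∀ p, DiscreteOrbit (cyl α φ) p) ∨ (∀ p, ¬ DiscreteOrbit (cyl α φ) p) := by
    by_cases h0 : mFourierCoeff (fun t : UnitAddTorus (Fin d) => ((φ t : ℝ) : ℂ)) 0 = 0
    · right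
      intro p hp
      rw [discrete_iff hirr hφ] at hp
      exact (sysOf hirr hφ p).not_tendsto (by rw [sysOf_zero]; exact h0) hp
    · left
      intro p
      rw [discrete_iff hirr hφ]
      exact (sysOf hirr hφ p).tendsto (by rw [sysOf_zero]; exact h0)
  refine ⟨hdich, ?_⟩
  rintro ⟨⟨p, hp⟩, ⟨q, hq⟩⟩
  rcases hdich with h | h
  · exact not_dense_of_discrete (h p) hp
  · exact h q hq

end Pool.Agent.Results.MP_3d11e1_an.NoSmoothBesicovitch
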